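import Pool.Agent.Q208.F.EqClassical

/-!
# `non(E) < b_b^eq` is consistent, simultaneously for all `b` with `∑ 1 / b k = ∞`

Adding random reals forces `non(E) = ℵ₁`, while all the numbers `b_b^eq` are as large as wanted.
-/

open Cardinal Q208.F

namespace Pool.Agent.Results.MP_0fb2ec_lc.UniformityBelowEq

/-- First part: the meaning of the sentences with the classical truth values. Second part: for
every cardinal `κ ≥ ℵ₁` there is a set `P` of forcing conditions with the countable chain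
condition, so that all uncountable cardinals are preserved, such that every condition forces that
`non(E) ≤ ℵ₁`, and that for all `b` with positive values and `∑ 1 / b k = ∞`, `b_b^eq ≤ κ` fails. -/
theorem result :
    ((∀ K : Type, classical.nonELe K ↔ nonE ≤ #K) ∧
      (∀ b : ℕ → ℕ, classical.divergent (fun k m => b k = m) ↔
        (∀ k, 1 ≤ b k) ∧ ¬ Summable fun k => 1 / (b k : ℝ)) ∧
      (∀ (K : Type) (b : ℕ → ℕ), (∀ k, 1 ≤ b k) →
        (classical.bEqLe K (fun k m => b k = m) ↔ ∃ F : Set (ℕ → ℕ), (∀ f ∈ F, InProd b f) ∧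
          (¬ ∃ I h : ℕ → ℕ, IsPart I ∧ InProd b h ∧ ∀ f ∈ F, EvEq f I h) ∧ #F ≤ #K))) ∧
    ∀ κ : Cardinal.{0}, ℵ₁ ≤ κ → ∃ (P : Type) (_ : PartialOrder P),
      Nonempty P ∧ CCC P ∧ CardinalsPreserved P ∧
      (∀ W : Type, #W = ℵ₁ → ∀ p : P, p ∈ (forcing P).nonELe W) ∧
      (∀ W : Type, #W ≤ κ → ∀ p : P, p ∈ (forcing P).all fun b : ℕ → ℕ → Set P =>
        (forcing P).imp ((forcing P).divergent b) ((forcing P).neg ((forcing P).bEqLe W b))) := by
  refine ⟨⟨nonELe_iff, divergent_iff, fun K b hb => bEqLe_iff K hb⟩, fun κ hκ => ?_⟩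
  let L : Type := (Order.succ κ).out
  have hL : #L = Order.succ κ := Cardinal.mk_out _
  have hL1 : ℵ₁ < #L := by rw [hL]; exact Order.lt_succ_of_le hκ
  have hL0 : ℵ₀ < #L := Cardinal.aleph0_lt_aleph_one.trans hL1
  refine ⟨CR Empty L, inferInstance, ⟨Cond.top⟩, ccc_Cond, cardinalsPreserved ccc_Cond,
    fun W hW p => ?_, fun W hW p => ?_⟩
  · have hle : #W ≤ #L := by rw [hW]; exact hL1.le
    obtain ⟨e⟩ := hle
    refine mem_nonELe e (fun hc => ?_) p
    have h1 := Cardinal.mk_le_aleph0_iff.mpr hc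
    rw [hW] at h1
    exact absurd Cardinal.aleph0_lt_aleph_one (not_lt.mpr h1)
  · have hlt : #W < #L := by rw [hL]; exact Order.lt_succ_of_le hW
    exact not_bEqLe hlt hL0 p

end Pool.Agent.Results.MP_0fb2ec_lc.UniformityBelowEq
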